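import Pool.Agent.Q236.CR.Stm

/-!
# Project CR, job FD: sums of characters times `n^{-iτ}` in dyadic blocks, trivial approximation by integrals

The proof uses the primitive `F y = y^{1-iτ} / (1-iτ)` and the periodicity of the character:
`q ∑ χ(n) n^{-iτ} = ∑ χ(n) (F (n+q) - F n) + O(q^2 |τ| / M)` per term.
-/

set_option autoImplicit false

namespace Pool.Agent.V5helper35.CR

open Finset Pool.Agent.Q236.CR

/-- partial summation with a monotone weight -/
theorem abel (f : ℕ → ℂ) (g : ℕ → ℝ) (u : ℕ) (B : ℝ) (hg : Monotone g) (v : ℕ) (huv : u ≤ v)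
    (hB : ∀ w, u ≤ w → w ≤ v → ‖∑ n ∈ Finset.Ioc u w, f n‖ ≤ B) :
    ∃ R : ℂ, ∑ n ∈ Finset.Ioc u v, f n * (g n : ℂ) = (g v : ℂ) * ∑ n ∈ Finset.Ioc u v, f n - R ∧
      ‖R‖ ≤ B * (g v - g u) := by
  induction v, huv using Nat.le_induction with
  | base => exact ⟨0, by simp, by simp⟩
  | succ v hv ih =>
    obtain ⟨R, h1, h2⟩ := ih (fun w h1 h2 => hB w h1 (by omega))
    refine ⟨R + ((g (v+1) : ℂ) - (g v : ℂ)) * ∑ n ∈ Finset.Ioc u v, f n, ?_, ?_⟩
    · rw [Finset.sum_Ioc_succ_top hv, Finset.sum_Ioc_succ_top hv, h1]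
      ring
    · have h3 := hB v hv (by omega)
      have h4 : ‖((g (v+1) : ℂ) - (g v : ℂ))‖ = g (v+1) - g v := by
        rw [← Complex.ofReal_sub, Complex.norm_real, Real.norm_eq_abs, abs_of_nonneg]
        have := hg (Nat.le_succ v)
        simp only [Nat.succ_eq_add_one] at this
        linarith
      have h5 : 0 ≤ g (v+1) - g v := by
        have := hg (Nat.le_succ v)
        simp only [Nat.succ_eq_add_one] at this
        linarith
      calc ‖R + ((g (v+1) : ℂ) - (g v : ℂ)) * ∑ n ∈ Finset.Ioc u v, f n‖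
          ≤ ‖R‖ + ‖((g (v+1) : ℂ) - (g v : ℂ))‖ * ‖∑ n ∈ Finset.Ioc u v, f n‖ := by
            refine (norm_add_le _ _).trans ?_
            rw [norm_mul]
        _ ≤ B * (g v - g u) + (g (v+1) - g v) * B := by
            rw [h4]
            exact add_le_add h2 (mul_le_mul_of_nonneg_left h3 h5)
        _ = B * (g (v+1) - g u) := by ring

theorem abel_log (f : ℕ → ℂ) (u v : ℕ) (B : ℝ) (huv : u ≤ v)
    (hB : ∀ w, u ≤ w → w ≤ v → ‖∑ n ∈ Finset.Ioc u w, f n‖ ≤ B) :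
    ‖∑ n ∈ Finset.Ioc u v, f n * (Real.log n : ℂ)‖ ≤ 2 * B * Real.log v := by
  have hB0 : 0 ≤ B := (norm_nonneg _).trans (hB u le_rfl huv)
  have hmono : Monotone (fun n : ℕ => Real.log n) := by
    intro a b hab
    simp only
    rcases Nat.eq_zero_or_pos a with h | h
    · subst h; simpa using Real.log_natCast_nonneg b
    · exact Real.log_le_log (by exact_mod_cast h) (by exact_mod_cast hab)
  obtain ⟨R, h1, h2⟩ := abel f (fun n => Real.log n) u B hmono v huv hB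
  rw [h1]
  have h3 : ‖((Real.log v : ℝ) : ℂ)‖ = Real.log v := by
    rw [Complex.norm_real, Real.norm_eq_abs, abs_of_nonneg (Real.log_natCast_nonneg v)]
  have h4 : 0 ≤ B * Real.log u := mul_nonneg hB0 (Real.log_natCast_nonneg u)
  calc ‖((Real.log v : ℝ) : ℂ) * ∑ n ∈ Finset.Ioc u v, f n - R‖
      ≤ ‖((Real.log v : ℝ) : ℂ)‖ * ‖∑ n ∈ Finset.Ioc u v, f n‖ + ‖R‖ := by
        refine (norm_sub_le _ _).trans ?_
        rw [norm_mul]
    _ ≤ Real.log v * B + B * (Real.log v - Real.log u) := by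
        rw [h3]
        exact add_le_add (mul_le_mul_of_nonneg_left (hB v huv le_rfl) (Real.log_natCast_nonneg v)) h2
    _ ≤ 2 * B * Real.log v := by nlinarith

/-- the primitive of `y^{-iτ}` -/
noncomputable def Fp (τ : ℝ) (y : ℝ) : ℂ := (y : ℂ) ^ ((1 : ℂ) - τ * Complex.I) / ((1 : ℂ) - τ * Complex.I)

theorem one_sub_ne (τ : ℝ) : ((1 : ℂ) - τ * Complex.I) ≠ 0 := by
  intro h
  have := congrArg Complex.re h
  simp at this

theorem norm_one_sub (τ : ℝ) : |τ| ≤ ‖((1 : ℂ) - τ * Complex.I)‖ := by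
  have := Complex.abs_im_le_norm ((1 : ℂ) - τ * Complex.I)
  simpa using this

theorem norm_Fp (τ y : ℝ) (hy : 0 < y) (hτ : 1 ≤ |τ|) : ‖Fp τ y‖ ≤ y / |τ| := by
  unfold Fp
  rw [norm_div, Complex.norm_cpow_eq_rpow_re_of_pos hy]
  have h1 : ((1 : ℂ) - τ * Complex.I).re = 1 := by simp
  rw [h1, Real.rpow_one]
  exact div_le_div_of_nonneg_left hy.le (by linarith) (norm_one_sub τ)

theorem hasDerivAt_Fp (τ y : ℝ) (hy : 0 < y) :
    HasDerivAt (Fp τ) ((y : ℂ) ^ (-(τ : ℂ) * Complex.I)) y := by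
  have h1 : HasDerivAt (fun z : ℂ => z ^ ((1 : ℂ) - τ * Complex.I))
      (((1 : ℂ) - τ * Complex.I) * (y : ℂ) ^ (((1 : ℂ) - τ * Complex.I) - 1)) (y : ℂ) := by
    have := (hasDerivAt_id (y : ℂ)).cpow_const (c := ((1 : ℂ) - τ * Complex.I)) (Or.inl (by simpa using hy))
    simpa using this
  have h2 := h1.comp_ofReal
  have h3 := h2.div_const ((1 : ℂ) - τ * Complex.I)
  have h4 : ((1 : ℂ) - τ * Complex.I) * (y : ℂ) ^ (((1 : ℂ) - τ * Complex.I) - 1) / ((1 : ℂ) - τ * Complex.I)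
      = (y : ℂ) ^ (-(τ : ℂ) * Complex.I) := by
    rw [mul_div_assoc, mul_comm, div_mul_cancel₀ _ (one_sub_ne τ)]
    congr 1
    ring
  rw [h4] at h3
  exact h3

theorem nt_diff (τ a b : ℝ) (ha : 0 < a) (hab : a ≤ b) :
    ‖(b : ℂ) ^ (-(τ : ℂ) * Complex.I) - (a : ℂ) ^ (-(τ : ℂ) * Complex.I)‖ ≤ |τ| * ((b - a) / a) := by
  have hb : 0 < b := ha.trans_le hab
  have e1 : ∀ x : ℝ, 0 < x → (x : ℂ) ^ (-(τ : ℂ) * Complex.I) = Complex.exp (Complex.I * ((-τ * Real.log x : ℝ) : ℂ)) := by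
    intro x hx
    rw [Complex.cpow_def_of_ne_zero (by exact_mod_cast hx.ne'), ← Complex.ofReal_log hx.le]
    congr 1
    push_cast
    ring
  rw [e1 a ha, e1 b hb]
  have h1 : Complex.exp (Complex.I * ((-τ * Real.log b : ℝ) : ℂ)) - Complex.exp (Complex.I * ((-τ * Real.log a : ℝ) : ℂ))
      = Complex.exp (Complex.I * ((-τ * Real.log a : ℝ) : ℂ)) *
        (Complex.exp (Complex.I * ((-τ * (Real.log b - Real.log a) : ℝ) : ℂ)) - 1) := by
    rw [mul_sub, ← Complex.exp_add]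
    congr 2
    · push_cast; ring
    · ring
  rw [h1, norm_mul]
  have h2 : ‖Complex.exp (Complex.I * ((-τ * Real.log a : ℝ) : ℂ))‖ = 1 := by
    rw [mul_comm]; exact Complex.norm_exp_ofReal_mul_I _
  rw [h2, one_mul]
  refine (Real.norm_exp_I_mul_ofReal_sub_one_le).trans ?_
  rw [Real.norm_eq_abs, abs_mul, abs_neg]
  refine mul_le_mul_of_nonneg_left ?_ (abs_nonneg _)
  rw [← Real.log_div hb.ne' ha.ne', abs_of_nonneg (Real.log_nonneg (by rw [le_div_iff₀ ha]; linarith))]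
  have := Real.log_le_sub_one_of_pos (div_pos hb ha)
  refine this.trans (le_of_eq ?_)
  field_simp

theorem step (τ : ℝ) (n q : ℕ) (hn : 1 ≤ n) :
    ‖Fp τ ((n : ℝ) + q) - Fp τ n - q * nt τ n‖ ≤ |τ| * (q : ℝ) ^ 2 / n := by
  have hn0 : (0 : ℝ) < n := by exact_mod_cast hn
  have hq0 : (0 : ℝ) ≤ q := Nat.cast_nonneg q
  set G : ℝ → ℂ := fun y => Fp τ y - y * nt τ n with hG
  have hder : ∀ y ∈ Set.Icc (n : ℝ) (n + q), HasDerivWithinAt G ((y : ℂ) ^ (-(τ : ℂ) * Complex.I) - nt τ n)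
      (Set.Icc (n : ℝ) (n + q)) y := by
    intro y hy
    have hy0 : 0 < y := hn0.trans_le hy.1
    have h1 := hasDerivAt_Fp τ y hy0
    have h2 : HasDerivAt (fun y : ℝ => (y : ℂ) * nt τ n) (nt τ n) y := by
      have := (Complex.ofRealCLM.hasDerivAt (x := y)).mul_const (nt τ n)
      simpa using this
    exact (h1.sub h2).hasDerivWithinAt
  have hbd : ∀ y ∈ Set.Ico (n : ℝ) (n + q), ‖(y : ℂ) ^ (-(τ : ℂ) * Complex.I) - nt τ n‖ ≤ |τ| * (q / n) := by
    intro y hy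
    have h1 := nt_diff τ n y hn0 hy.1
    have h2 : ((n : ℝ) : ℂ) = (n : ℂ) := by simp
    rw [h2] at h1
    refine h1.trans ?_
    refine mul_le_mul_of_nonneg_left ?_ (abs_nonneg _)
    refine div_le_div_of_nonneg_right ?_ hn0.le
    linarith [hy.2]
  have key := norm_image_sub_le_of_norm_deriv_le_segment' hder hbd ((n : ℝ) + q) (Set.right_mem_Icc.mpr (by linarith))
  have h3 : G ((n : ℝ) + q) - G n = Fp τ ((n : ℝ) + q) - Fp τ n - q * nt τ n := by
    simp only [hG]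
    push_cast
    ring
  rw [h3] at key
  refine key.trans (le_of_eq ?_)
  field_simp
  ring

theorem norm_chi_le {q : ℕ} (χ : DirichletCharacter ℂ q) (n : ℕ) : ‖χ (n : ZMod q)‖ ≤ 1 :=
  DirichletCharacter.norm_le_one χ _

theorem main_bound (q : ℕ) (hq : 1 ≤ q) (χ : DirichletCharacter ℂ q) (M u v : ℕ) (τ : ℝ)
    (hM : 1 ≤ M) (hu : M ≤ u + 1) (hv : v ≤ 2 * M) (hτ : 1 ≤ |τ|) :
    ‖∑ n ∈ Finset.Ioc u v, χ (n : ZMod q) * nt τ n‖ ≤ 6 * (M / |τ| + q * |τ|) := by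
  have hq0 : (0 : ℝ) < q := by exact_mod_cast hq
  have hM0 : (0 : ℝ) < M := by exact_mod_cast hM
  have hτ0 : (0 : ℝ) < |τ| := by linarith
  have hRHS : 0 ≤ 6 * (M / |τ| + q * |τ|) := by positivity
  rcases lt_or_ge v u with hvu | huv
  · rw [Finset.Ioc_eq_empty (by omega)]
    simpa using hRHS
  -- the telescoping identity
  set P : ℕ → ℂ := fun n => χ (n : ZMod q) * Fp τ n with hP
  have hper : ∀ n : ℕ, χ ((n + q : ℕ) : ZMod q) = χ (n : ZMod q) := by
    intro n; congr 1; simp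
  have hshift : ∑ n ∈ Finset.Ioc u v, P (n + q) = ∑ n ∈ Finset.Ioc (u + q) (v + q), P n := by
    have : Finset.Ioc (u + q) (v + q) = (Finset.Ioc u v).map (addRightEmbedding q) := by
      rw [Finset.map_add_right_Ioc]
    rw [this, Finset.sum_map]
    rfl
  have htel : ∑ n ∈ Finset.Ioc u v, (P (n + q) - P n) =
      ∑ n ∈ Finset.Ioc v (v + q), P n - ∑ n ∈ Finset.Ioc u (u + q), P n := by
    rw [Finset.sum_sub_distrib, hshift]
    have h1 : ∑ n ∈ Finset.Ioc u (u + q), P n + ∑ n ∈ Finset.Ioc (u + q) (v + q), P n =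
        ∑ n ∈ Finset.Ioc u (v + q), P n := Finset.sum_Ioc_consecutive P (by omega) (by omega)
    have h2 : ∑ n ∈ Finset.Ioc u v, P n + ∑ n ∈ Finset.Ioc v (v + q), P n =
        ∑ n ∈ Finset.Ioc u (v + q), P n := Finset.sum_Ioc_consecutive P (by omega) (by omega)
    linear_combination h1 - h2
  have hPb : ∀ n : ℕ, 1 ≤ n → n ≤ 2 * M + q → ‖P n‖ ≤ (2 * M + q) / |τ| := by
    intro n hn hn2
    have hn0 : (0 : ℝ) < n := by exact_mod_cast hn
    simp only [hP, norm_mul]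
    have h1 := norm_chi_le χ n
    have h2 := norm_Fp τ n hn0 hτ
    have h3 : (n : ℝ) / |τ| ≤ (2 * M + q) / |τ| := by
      refine div_le_div_of_nonneg_right ?_ hτ0.le
      exact_mod_cast hn2
    calc ‖χ (n : ZMod q)‖ * ‖Fp τ n‖ ≤ 1 * ‖Fp τ n‖ := mul_le_mul_of_nonneg_right h1 (norm_nonneg _)
      _ ≤ (2 * M + q) / |τ| := by rw [one_mul]; exact h2.trans h3
  have hsumP : ∀ w : ℕ, w ≤ 2 * M → ‖∑ n ∈ Finset.Ioc w (w + q), P n‖ ≤ q * ((2 * M + q) / |τ|) := by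
    intro w hw
    refine (norm_sum_le _ _).trans ?_
    have : ∑ n ∈ Finset.Ioc w (w + q), ‖P n‖ ≤ ∑ n ∈ Finset.Ioc w (w + q), ((2 * M + q) / |τ| : ℝ) := by
      refine Finset.sum_le_sum (fun n hn => ?_)
      rw [Finset.mem_Ioc] at hn
      exact hPb n (by omega) (by omega)
    refine this.trans (le_of_eq ?_)
    rw [Finset.sum_const, Nat.card_Ioc]
    simp
  have herr : ‖∑ n ∈ Finset.Ioc u v, (P (n + q) - P n - q * (χ (n : ZMod q) * nt τ n))‖ ≤
      (M + 1) * (|τ| * (q : ℝ) ^ 2 / M) := by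
    refine (norm_sum_le _ _).trans ?_
    have : ∑ n ∈ Finset.Ioc u v, ‖P (n + q) - P n - q * (χ (n : ZMod q) * nt τ n)‖ ≤
        ∑ n ∈ Finset.Ioc u v, (|τ| * (q : ℝ) ^ 2 / M : ℝ) := by
      refine Finset.sum_le_sum (fun n hn => ?_)
      rw [Finset.mem_Ioc] at hn
      have hn1 : 1 ≤ n := by omega
      have hnM : M ≤ n := by omega
      have hn0 : (0 : ℝ) < n := by exact_mod_cast hn1
      have h1 : P (n + q) - P n - q * (χ (n : ZMod q) * nt τ n) =
          χ (n : ZMod q) * (Fp τ ((n : ℝ) + q) - Fp τ n - q * nt τ n) := by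
        simp only [hP, hper]
        push_cast
        ring
      rw [h1, norm_mul]
      have h2 := step τ n q hn1
      have h3 : |τ| * (q : ℝ) ^ 2 / n ≤ |τ| * (q : ℝ) ^ 2 / M := by
        refine div_le_div_of_nonneg_left (by positivity) hM0 (by exact_mod_cast hnM)
      calc ‖χ (n : ZMod q)‖ * ‖Fp τ ((n : ℝ) + q) - Fp τ n - q * nt τ n‖
          ≤ 1 * ‖Fp τ ((n : ℝ) + q) - Fp τ n - q * nt τ n‖ :=
            mul_le_mul_of_nonneg_right (norm_chi_le χ n) (norm_nonneg _)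
        _ ≤ |τ| * (q : ℝ) ^ 2 / M := by rw [one_mul]; exact h2.trans h3
    refine this.trans ?_
    rw [Finset.sum_const, Nat.card_Ioc, nsmul_eq_mul]
    refine mul_le_mul_of_nonneg_right ?_ (by positivity)
    have : v - u ≤ M + 1 := by omega
    exact_mod_cast this
  -- combine
  have hcomb : (q : ℂ) * ∑ n ∈ Finset.Ioc u v, χ (n : ZMod q) * nt τ n =
      (∑ n ∈ Finset.Ioc v (v + q), P n - ∑ n ∈ Finset.Ioc u (u + q), P n) -
      ∑ n ∈ Finset.Ioc u v, (P (n + q) - P n - q * (χ (n : ZMod q) * nt τ n)) := by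
    rw [← htel, Finset.sum_sub_distrib (f := fun n => P (n + q) - P n), Finset.mul_sum]
    ring
  have hu2 : u ≤ 2 * M := by omega
  have hfin : (q : ℝ) * ‖∑ n ∈ Finset.Ioc u v, χ (n : ZMod q) * nt τ n‖ ≤
      2 * (q * ((2 * M + q) / |τ|)) + (M + 1) * (|τ| * (q : ℝ) ^ 2 / M) := by
    have h1 : (q : ℝ) * ‖∑ n ∈ Finset.Ioc u v, χ (n : ZMod q) * nt τ n‖ =
        ‖(q : ℂ) * ∑ n ∈ Finset.Ioc u v, χ (n : ZMod q) * nt τ n‖ := by
      rw [norm_mul]; simp
    rw [h1, hcomb]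
    refine (norm_sub_le _ _).trans (add_le_add ((norm_sub_le _ _).trans ?_) herr)
    have := hsumP v hv
    have := hsumP u hu2
    linarith
  have h2 : ((M : ℝ) + 1) * (|τ| * (q : ℝ) ^ 2 / M) ≤ 2 * (|τ| * (q : ℝ) ^ 2) := by
    have hM1 : (1 : ℝ) ≤ M := by exact_mod_cast hM
    rw [mul_div_assoc', div_le_iff₀ hM0]
    have : 0 ≤ |τ| * (q : ℝ) ^ 2 := by positivity
    nlinarith
  have h3 : (q : ℝ) * ‖∑ n ∈ Finset.Ioc u v, χ (n : ZMod q) * nt τ n‖ ≤
      q * (6 * (M / |τ| + q * |τ|)) := by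
    refine hfin.trans ?_
    have h4 : (q : ℝ) / |τ| ≤ q * |τ| := by
      rw [div_le_iff₀ hτ0]
      nlinarith [mul_le_mul hτ hτ zero_le_one hτ0.le]
    have h5 : (2 * (M : ℝ) + q) / |τ| = 2 * (M / |τ|) + q / |τ| := by ring
    rw [h5]
    have h6 : 0 ≤ (M : ℝ) / |τ| := by positivity
    nlinarith
  exact le_of_mul_le_mul_left h3 hq0

theorem fd : S_FD := by
  refine ⟨24, by norm_num, ?_⟩
  intro q hq χ M u v τ hM hu hv hτ
  have hq1 : 1 ≤ q := Nat.one_le_iff_ne_zero.mpr hq.out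
  have hM0 : (0 : ℝ) < M := by exact_mod_cast hM
  have hM1 : (1 : ℝ) ≤ M := by exact_mod_cast hM
  have hτ0 : (0 : ℝ) < |τ| := by linarith
  have hA : 0 ≤ (M : ℝ) / |τ| + q * |τ| := by positivity
  have hl : 0 ≤ Real.log M := Real.log_natCast_nonneg M
  refine ⟨(main_bound q hq1 χ M u v τ hM hu hv hτ).trans (by linarith), ?_⟩
  rcases lt_or_ge v u with hvu | huv
  · rw [Finset.Ioc_eq_empty (by omega)]
    simp only [Finset.sum_empty, norm_zero]
    positivity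
  have h1 : ∑ n ∈ Finset.Ioc u v, (χ (n : ZMod q) * (Real.log n : ℂ)) * nt τ n =
      ∑ n ∈ Finset.Ioc u v, (χ (n : ZMod q) * nt τ n) * (Real.log n : ℂ) :=
    Finset.sum_congr rfl (fun n _ => by ring)
  rw [h1]
  have h2 := abel_log (fun n => χ (n : ZMod q) * nt τ n) u v (6 * (M / |τ| + q * |τ|)) huv
    (fun w h1 h2 => main_bound q hq1 χ M u w τ hM hu (by omega) hτ)
  refine h2.trans ?_
  rcases Nat.eq_zero_or_pos v with h0 | h0
  · subst h0; simp; positivity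
  have h3 : Real.log v ≤ 1 + Real.log M := by
    have h4 : Real.log v ≤ Real.log (2 * M) := Real.log_le_log (by exact_mod_cast h0) (by exact_mod_cast hv)
    rw [Real.log_mul (by norm_num) hM0.ne'] at h4
    have := Real.log_two_lt_d9
    linarith
  have h5 : 2 * (6 * ((M : ℝ) / |τ| + q * |τ|)) * Real.log v ≤ 2 * (6 * ((M : ℝ) / |τ| + q * |τ|)) * (1 + Real.log M) :=
    mul_le_mul_of_nonneg_left h3 (by positivity)
  refine h5.trans ?_
  have : 0 ≤ ((M : ℝ) / |τ| + q * |τ|) * (1 + Real.log M) := by positivity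
  nlinarith

end Pool.Agent.V5helper35.CR
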