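import Pool.Agent.Q236.CR.Stm
import Pool.Agent.V5helper35.CR.FD

/-!
# Project CR, job PW: pointwise bounds on blocks (from CHR and MOC)
-/

set_option autoImplicit false

namespace Pool.Agent.V5helper35.CR

open Finset Filter Pool.Agent.Q236.CR

theorem ev_exp (A : ℝ) (k : ℕ) (c : ℝ) (hc : 0 < c) : ∀ᶠ L : ℝ in atTop, A * L ^ k ≤ Real.exp (c * L) := by
  have h1 := (isLittleO_pow_exp_pos_mul_atTop k hc).const_mul_left A
  have h2 := h1.def (c := 1) one_pos
  filter_upwards [h2] with L hL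
  rw [one_mul, Real.norm_eq_abs, Real.norm_eq_abs, abs_of_pos (Real.exp_pos _)] at hL
  exact (le_abs_self _).trans hL

theorem norm_nt_le (τ : ℝ) (n : ℕ) (hn : 1 ≤ n) : ‖nt τ n‖ = 1 := by
  unfold nt
  rw [Complex.norm_natCast_cpow_of_pos (by omega)]
  simp

/-- all conditions on `L = log X` -/
structure LC (B K m C0 : ℕ) (E1 c2 C2 C3 : ℝ) (L : ℝ) : Prop where
  h10 : 10 ≤ L
  h2m : 2 * (m : ℝ) * 3 ≤ L
  a1 : 4 * E1 * L ^ (B + (K + 2)) ≤ Real.exp (c2 * L)
  a2 : 2 * L ^ (K + 2) ≤ Real.exp (1 / (m : ℝ) * L)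
  a3 : 24 * C2 ≤ L
  a4 : (2 * (m : ℝ)) ^ (B + 1) ≤ L
  a5 : (3 : ℝ) ^ C0 ≤ L
  a6 : 4 * |C3| * (2 * (m : ℝ)) ^ (K + 1) ≤ L

theorem ev_LC (B K m C0 : ℕ) (hm : 1 ≤ m) (E1 c2 C2 C3 : ℝ) (hc2 : 0 < c2) :
    ∀ᶠ L : ℝ in atTop, LC B K m C0 E1 c2 C2 C3 L := by
  have hm0 : (0 : ℝ) < m := by exact_mod_cast hm
  filter_upwards [eventually_ge_atTop (10 : ℝ), eventually_ge_atTop (2 * (m : ℝ) * 3),
    ev_exp (4 * E1) (B + (K + 2)) c2 hc2, ev_exp 2 (K + 2) (1 / (m : ℝ)) (by positivity),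
    eventually_ge_atTop (24 * C2), eventually_ge_atTop ((2 * (m : ℝ)) ^ (B + 1)),
    eventually_ge_atTop ((3 : ℝ) ^ C0), eventually_ge_atTop (4 * |C3| * (2 * (m : ℝ)) ^ (K + 1))]
    with L h1 h2 h3 h4 h5 h6 h7 h8
  exact ⟨h1, h2, h3, h4, h5, h6, h7, h8⟩

/-- the block bound for the character itself, exponent `K + 2` -/
theorem block (B K m : ℕ) (hm : 1 ≤ m) (C0 C1 : ℕ) (c C2 C3 : ℝ) (hc : 0 < c) (hC2 : 1 ≤ C2)
    (q : ℕ) (χ : DirichletCharacter ℂ q)
    (h1 : ∀ (N N' : ℕ) (t κ : ℝ), 2 ≤ N → N ≤ N' → N' ≤ 2 * N → 1 ≤ κ → |t| = (N : ℝ) ^ κ →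
      ‖∑ n ∈ Finset.Ioc N N', χ (n : ZMod q) * nt t n‖ ≤
        q * (Real.exp (C1 * (1 + κ) ^ C1) * (N : ℝ) ^ (1 - c / (1 + κ) ^ 2 : ℝ)))
    (h2 : ∀ (N N' : ℕ) (t : ℝ), 1 ≤ N → N ≤ N' → N' ≤ 2 * N → 1 ≤ |t| →
      ‖∑ n ∈ Finset.Ioc N N', χ (n : ZMod q) * nt t n‖ ≤ q * (C2 * (√|t| + N / √|t|) * (1 + Real.log N)))
    (X : ℕ) (hX : 1 ≤ X)
    (hL : LC B K m C0 (Real.exp (C1 * (1 + (m : ℝ)) ^ C1)) (c / (m * (1 + (m : ℝ)) ^ 2)) C2 C3 (Real.log X))
    (hq : (q : ℝ) ≤ Real.log X ^ B) (M : ℕ) (hXM : (X : ℝ) ≤ (M : ℝ) ^ m) (hMX : M ≤ X ^ 2)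
    (τ : ℝ) (hτ1 : Real.log X ^ (2 * (B + K + 5)) ≤ |τ|) (hτ2 : |τ| ≤ X) (u v : ℕ) (hu : M ≤ u + 1) (hv : v ≤ 2 * M) :
    ‖∑ n ∈ Finset.Ioc u v, χ (n : ZMod q) * nt τ n‖ ≤ M / Real.log X ^ (K + 2) := by
  set L := Real.log X with hLdef
  have hL10 := hL.h10
  have hL0 : 0 < L := by linarith
  have hL1 : 1 ≤ L := by linarith
  have hm0 : (0 : ℝ) < m := by exact_mod_cast hm
  have hm1 : (1 : ℝ) ≤ m := by exact_mod_cast hm
  have hX0 : (0 : ℝ) < X := by exact_mod_cast hX
  have hMpos : 1 ≤ M := by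
    rcases Nat.eq_zero_or_pos M with h | h
    · subst h
      rw [Nat.cast_zero, zero_pow (by omega)] at hXM
      linarith
    · exact h
  have hM0 : (0 : ℝ) < M := by exact_mod_cast hMpos
  have hl1 : L ≤ m * Real.log M := by
    have := Real.log_le_log hX0 hXM
    rwa [Real.log_pow] at this
  have hl2 : Real.log M ≤ 2 * L := by
    have h : (M : ℝ) ≤ (X : ℝ) ^ 2 := by exact_mod_cast hMX
    have := Real.log_le_log hM0 h
    rw [Real.log_pow] at this
    exact_mod_cast this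
  have hl3 : 1 / (m : ℝ) * L ≤ Real.log M := by
    rw [one_div, inv_mul_le_iff₀ hm0]; exact hl1
  have hMexp : Real.exp (1 / (m : ℝ) * L) ≤ M := by
    calc Real.exp (1 / (m : ℝ) * L) ≤ Real.exp (Real.log M) := Real.exp_le_exp.mpr hl3
      _ = M := Real.exp_log hM0
  have hfirst : 1 ≤ M / (2 * L ^ (K + 2)) := by
    rw [le_div_iff₀ (by positivity), one_mul]
    exact hL.a2.trans hMexp
  have hM2 : (2 : ℝ) ≤ M := by
    have h1 : 1 ≤ L ^ (K + 2) := one_le_pow₀ hL1
    have := hL.a2.trans hMexp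
    linarith
  rcases le_or_gt v u with hvu | huv
  · rw [Finset.Ioc_eq_empty (by omega)]
    simp only [Finset.sum_empty, norm_zero]
    positivity
  have hsplit : ∑ n ∈ Finset.Ioc u v, χ (n : ZMod q) * nt τ n =
      χ ((u + 1 : ℕ) : ZMod q) * nt τ (u + 1) + ∑ n ∈ Finset.Ioc (u + 1) v, χ (n : ZMod q) * nt τ n := by
    rw [← Finset.sum_Ioc_consecutive (fun n : ℕ => χ (n : ZMod q) * nt τ n) (Nat.le_succ u) huv, Nat.Ioc_succ_singleton,
      Finset.sum_singleton]
  have hone : ‖χ ((u + 1 : ℕ) : ZMod q) * nt τ (u + 1)‖ ≤ 1 := by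
    rw [norm_mul, norm_nt_le τ (u + 1) (by omega), mul_one]
    exact norm_chi_le χ (u + 1)
  set N := u + 1 with hN
  have hNM : (M : ℝ) ≤ N := by exact_mod_cast hu
  have hN2 : (2 : ℝ) ≤ N := hM2.trans hNM
  have hN2' : 2 ≤ N := by exact_mod_cast hN2
  have hN0 : (0 : ℝ) < N := by linarith
  have hN2M : (N : ℝ) ≤ 2 * M := by
    have : N ≤ 2 * M := by omega
    exact_mod_cast this
  have hlogN : Real.log M ≤ Real.log N := Real.log_le_log hM0 hNM
  have hlogN0 : 0 < Real.log N := Real.log_pos (by linarith)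
  have hlogN2 : Real.log N ≤ 1 + 2 * L := by
    have h4 : Real.log N ≤ Real.log (2 * M) := Real.log_le_log hN0 hN2M
    rw [Real.log_mul (by norm_num) hM0.ne'] at h4
    have := Real.log_two_lt_d9
    linarith
  have hτ1' : 1 ≤ |τ| := (one_le_pow₀ hL1).trans hτ1
  have hτ0 : 0 < |τ| := by linarith
  have hq0 : (0 : ℝ) ≤ q := Nat.cast_nonneg q
  have hmain : ‖∑ n ∈ Finset.Ioc N v, χ (n : ZMod q) * nt τ n‖ ≤ M / (2 * L ^ (K + 2)) := by
    rcases le_or_gt (N : ℝ) |τ| with hcase | hcase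
    · set κ := Real.log |τ| / Real.log N with hκ
      have hκ1 : 1 ≤ κ := by
        rw [hκ, le_div_iff₀ hlogN0, one_mul]
        exact Real.log_le_log hN0 hcase
      have hκm : κ ≤ m := by
        rw [hκ, div_le_iff₀ hlogN0]
        have h3 : Real.log |τ| ≤ L := Real.log_le_log hτ0 hτ2
        calc Real.log |τ| ≤ L := h3
          _ ≤ m * Real.log M := hl1
          _ ≤ m * Real.log N := mul_le_mul_of_nonneg_left hlogN hm0.le
      have hκeq : |τ| = (N : ℝ) ^ κ := by
        rw [Real.rpow_def_of_pos hN0, hκ, mul_div_cancel₀ _ hlogN0.ne', Real.exp_log hτ0]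
      have hb := h1 N v τ κ hN2' (by omega) (by omega) hκ1 hκeq
      refine hb.trans ?_
      have hE : Real.exp (C1 * (1 + κ) ^ C1) ≤ Real.exp (C1 * (1 + (m : ℝ)) ^ C1) := by
        apply Real.exp_le_exp.mpr
        refine mul_le_mul_of_nonneg_left ?_ (Nat.cast_nonneg C1)
        exact pow_le_pow_left₀ (by linarith) (by linarith) _
      have hP : (N : ℝ) ^ (1 - c / (1 + κ) ^ 2 : ℝ) ≤ 2 * M * (Real.exp (c / (m * (1 + (m : ℝ)) ^ 2) * L))⁻¹ := by
        rw [Real.rpow_def_of_pos hN0]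
        have e1 : Real.log N * (1 - c / (1 + κ) ^ 2) = Real.log N + (-(c / (1 + κ) ^ 2 * Real.log N)) := by ring
        rw [e1, Real.exp_add, Real.exp_log hN0, Real.exp_neg]
        refine mul_le_mul hN2M ?_ (by positivity) (by positivity)
        refine inv_anti₀ (Real.exp_pos _) (Real.exp_le_exp.mpr ?_)
        have e2 : c / (m * (1 + (m : ℝ)) ^ 2) * L = c / (1 + (m : ℝ)) ^ 2 * (1 / m * L) := by
          field_simp
        rw [e2]
        refine mul_le_mul ?_ (hl3.trans hlogN) (by positivity) (by positivity)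
        refine div_le_div_of_nonneg_left hc.le (by positivity) ?_
        exact pow_le_pow_left₀ (by linarith) (by linarith) _
      have hexp := hL.a1
      set Ex := Real.exp (c / (m * (1 + (m : ℝ)) ^ 2) * L) with hEx
      set E1 := Real.exp (C1 * (1 + (m : ℝ)) ^ C1) with hE1
      have hEx0 : 0 < Ex := Real.exp_pos _
      have hE10 : 0 < E1 := Real.exp_pos _
      calc (q : ℝ) * (Real.exp (C1 * (1 + κ) ^ C1) * (N : ℝ) ^ (1 - c / (1 + κ) ^ 2 : ℝ))
          ≤ L ^ B * (E1 * (2 * M * Ex⁻¹)) := by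
            refine mul_le_mul hq (mul_le_mul hE hP (by positivity) hE10.le) (by positivity) (by positivity)
        _ ≤ M / (2 * L ^ (K + 2)) := by
            rw [le_div_iff₀ (by positivity)]
            have e3 : L ^ B * (E1 * (2 * M * Ex⁻¹)) * (2 * L ^ (K + 2)) = (M : ℝ) * ((4 * E1 * L ^ (B + (K + 2))) * Ex⁻¹) := by
              rw [pow_add L B (K+2)]; ring
            rw [e3]
            have e4 : (4 * E1 * L ^ (B + (K + 2))) * Ex⁻¹ ≤ 1 := by
              rw [mul_inv_le_iff₀ hEx0, one_mul]; exact hexp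
            calc (M : ℝ) * ((4 * E1 * L ^ (B + (K + 2))) * Ex⁻¹) ≤ M * 1 := mul_le_mul_of_nonneg_left e4 hM0.le
              _ = M := mul_one _
    · have hb := h2 N v τ (by omega) (by omega) (by omega) hτ1'
      refine hb.trans ?_
      have hs0 : 0 < √|τ| := Real.sqrt_pos.mpr hτ0
      have hs1 : √|τ| ≤ N / √|τ| := by
        rw [le_div_iff₀ hs0, Real.mul_self_sqrt hτ0.le]; exact hcase.le
      have hs2 : L ^ (B + K + 5) ≤ √|τ| := by
        apply Real.le_sqrt_of_sq_le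
        rw [← pow_mul, mul_comm (B + K + 5) 2]; exact hτ1
      have hs3 : (N : ℝ) / √|τ| ≤ 2 * M / L ^ (B + K + 5) :=
        div_le_div₀ (by positivity) hN2M (by positivity) hs2
      have hlog3 : 1 + Real.log N ≤ 3 * L := by linarith
      calc (q : ℝ) * (C2 * (√|τ| + N / √|τ|) * (1 + Real.log N))
          ≤ L ^ B * (C2 * (2 * (2 * M / L ^ (B + K + 5))) * (3 * L)) := by
            refine mul_le_mul hq ?_ (by positivity) (by positivity)
            refine mul_le_mul ?_ hlog3 (by positivity) (by positivity)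
            refine mul_le_mul_of_nonneg_left ?_ (by linarith)
            linarith
        _ ≤ M / (2 * L ^ (K + 2)) := by
            rw [le_div_iff₀ (by positivity)]
            have e3 : L ^ B * (C2 * (2 * (2 * M / L ^ (B + K + 5))) * (3 * L)) * (2 * L ^ (K + 2)) =
                (M : ℝ) * (24 * C2 / L ^ 2) := by
              have : L ^ (B + K + 5) = L ^ B * L ^ (K + 2) * L * L ^ 2 := by ring
              rw [this]
              field_simp
              ring
            rw [e3]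
            have e4 : 24 * C2 / L ^ 2 ≤ 1 := by
              rw [div_le_one (by positivity)]
              have := hL.a3
              nlinarith
            calc (M : ℝ) * (24 * C2 / L ^ 2) ≤ M * 1 := mul_le_mul_of_nonneg_left e4 hM0.le
              _ = M := mul_one _
  rw [hsplit]
  calc ‖χ ((N : ℕ) : ZMod q) * nt τ N + ∑ n ∈ Finset.Ioc N v, χ (n : ZMod q) * nt τ n‖
      ≤ 1 + M / (2 * L ^ (K + 2)) := (norm_add_le _ _).trans (add_le_add hone hmain)
    _ ≤ M / (2 * L ^ (K + 2)) + M / (2 * L ^ (K + 2)) := by linarith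
    _ = M / L ^ (K + 2) := by field_simp; ring

theorem pw : S_CHR → S_MOC → S_PW := by
  intro hchr hmoc B K m hm
  obtain ⟨⟨C1, c, hc, -, H1⟩, ⟨C2, hC2, H2⟩⟩ := hchr
  obtain ⟨C0', C3, H3⟩ := hmoc (2 * m) (B + 1) (K + 1)
  have hm0 : (0 : ℝ) < m := by exact_mod_cast hm
  have hm1 : (1 : ℝ) ≤ m := by exact_mod_cast hm
  have hev := ev_LC B K m C0' hm (Real.exp (C1 * (1 + (m : ℝ)) ^ C1)) (c / (m * (1 + (m : ℝ)) ^ 2)) C2 C3
    (by positivity)
  have hevX : ∀ᶠ X : ℕ in atTop, LC B K m C0' (Real.exp (C1 * (1 + (m : ℝ)) ^ C1)) (c / (m * (1 + (m : ℝ)) ^ 2))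
      C2 C3 (Real.log X) := (Real.tendsto_log_atTop.comp tendsto_natCast_atTop_atTop).eventually hev
  obtain ⟨X₀, hX₀⟩ := Filter.eventually_atTop.mp hevX
  refine ⟨max (C0' + 1) (2 * (B + K + 5)), max X₀ 1, ?_⟩
  intro X hX q hqne hq χ M u v hXM hu hv hMX τ hτ1 hτ2
  have hX1 : 1 ≤ X := le_trans (le_max_right _ _) hX
  have hL := hX₀ X (le_trans (le_max_left _ _) hX)
  set L := Real.log X with hLdef
  have hL10 := hL.h10
  have hL0 : 0 < L := by linarith
  have hL1 : 1 ≤ L := by linarith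
  have hX0 : (0 : ℝ) < X := by exact_mod_cast hX1
  have hMpos : 1 ≤ M := by
    rcases Nat.eq_zero_or_pos M with h | h
    · subst h
      rw [Nat.cast_zero, zero_pow (by omega)] at hXM
      linarith
    · exact h
  have hM0 : (0 : ℝ) < M := by exact_mod_cast hMpos
  have hl1 : L ≤ m * Real.log M := by
    have := Real.log_le_log hX0 hXM
    rwa [Real.log_pow] at this
  have hl2 : Real.log M ≤ 2 * L := by
    have h : (M : ℝ) ≤ (X : ℝ) ^ 2 := by exact_mod_cast hMX
    have := Real.log_le_log hM0 h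
    rw [Real.log_pow] at this
    exact_mod_cast this
  have hτa : L ^ (2 * (B + K + 5)) ≤ |τ| := (pow_le_pow_right₀ hL1 (le_max_right _ _)).trans hτ1
  have hτb : L ^ (C0' + 1) ≤ |τ| := (pow_le_pow_right₀ hL1 (le_max_left _ _)).trans hτ1
  have hblock : ∀ w, w ≤ 2 * M → ‖∑ n ∈ Finset.Ioc u w, χ (n : ZMod q) * nt τ n‖ ≤ M / L ^ (K + 2) :=
    fun w hw => block B K m hm C0' C1 c C2 C3 hc hC2 q χ (H1 q hqne χ) (H2 q hqne χ) X hX1 hL hq M hXM hMX τ hτa hτ2
      u w hu hw
  have hnn : (0 : ℝ) ≤ M / L ^ K := by positivity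
  refine ⟨?_, ?_, ?_⟩
  · -- Moebius
    rcases le_or_gt v u with hvu | huv
    · rw [Finset.Ioc_eq_empty (by omega)]
      simpa using hnn
    have hM6 : 6 * (m : ℝ) ≤ L := by linarith [hL.h2m]
    have hlM : L / m ≤ Real.log M := by rw [div_le_iff₀ hm0]; linarith
    have hlM6 : 6 ≤ Real.log M := le_trans (by rw [le_div_iff₀ hm0]; exact hM6) hlM
    have hM6' : (6 : ℝ) ≤ M := hlM6.trans ((Real.log_le_sub_one_of_pos hM0).trans (by linarith))
    have key : ∀ N : ℕ, M ≤ N + 1 → N ≤ 2 * M →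
        ‖∑ n ∈ Finset.Icc 1 N, ((ArithmeticFunction.moebius n : ℤ) : ℂ) * (χ (n : ZMod q) * nt τ n)‖ ≤
          M / (2 * L ^ K) := by
      intro N hN1 hN2
      have hN1' : (M : ℝ) ≤ N + 1 := by exact_mod_cast hN1
      have hN2' : (N : ℝ) ≤ 2 * M := by exact_mod_cast hN2
      have hNhalf : (M : ℝ) / 2 ≤ N := by linarith
      have hN0 : (0 : ℝ) < N := by linarith
      have hlN : L / (2 * m) ≤ Real.log N := by
        have h4 : Real.log (M / 2) ≤ Real.log N := Real.log_le_log (by positivity) hNhalf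
        rw [Real.log_div hM0.ne' (by norm_num)] at h4
        have := Real.log_two_lt_d9
        have h5 : L / (2 * m) = (L / m) / 2 := by ring
        rw [h5]
        linarith
      have hlN2 : Real.log N ≤ 3 * L := by
        have h4 : Real.log N ≤ Real.log (2 * M) := Real.log_le_log hN0 hN2'
        rw [Real.log_mul (by norm_num) hM0.ne'] at h4
        have := Real.log_two_lt_d9
        linarith
      have hlN0 : 0 < Real.log N := lt_of_lt_of_le (by positivity) hlN
      have hL2m : L ≤ 2 * m * Real.log N := by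
        rw [div_le_iff₀ (by positivity)] at hlN; linarith
      have c1 : (2 : ℕ) ≤ N := by
        have : (2 : ℝ) ≤ N := by linarith
        exact_mod_cast this
      have c2 : (q : ℝ) ≤ Real.log N ^ (B + 1) := by
        have h6 : (2 * (m : ℝ)) ^ B ≤ Real.log N := by
          refine le_trans ?_ hlN
          rw [le_div_iff₀ (by positivity), ← pow_succ]
          exact hL.a4
        calc (q : ℝ) ≤ L ^ B := hq
          _ ≤ (2 * m * Real.log N) ^ B := pow_le_pow_left₀ hL0.le hL2m _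
          _ = (2 * (m : ℝ)) ^ B * Real.log N ^ B := mul_pow _ _ _
          _ ≤ Real.log N * Real.log N ^ B := mul_le_mul_of_nonneg_right h6 (by positivity)
          _ = Real.log N ^ (B + 1) := by rw [pow_succ]; ring
      have c3 : Real.log N ^ C0' ≤ |τ| := by
        refine le_trans ?_ hτb
        calc Real.log N ^ C0' ≤ (3 * L) ^ C0' := pow_le_pow_left₀ hlN0.le hlN2 _
          _ = 3 ^ C0' * L ^ C0' := mul_pow _ _ _
          _ ≤ L * L ^ C0' := mul_le_mul_of_nonneg_right hL.a5 (by positivity)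
          _ = L ^ (C0' + 1) := by rw [pow_succ]; ring
      have c4 : |τ| ≤ (N : ℝ) ^ (2 * m) := by
        refine hτ2.trans ?_
        have h7 : Real.exp L ≤ Real.exp (2 * m * Real.log N) := Real.exp_le_exp.mpr hL2m
        rw [hLdef, Real.exp_log hX0] at h7
        refine h7.trans (le_of_eq ?_)
        have h8 : (2 * (m : ℝ) * Real.log N) = Real.log N * ((2 * m : ℕ) : ℝ) := by push_cast; ring
        rw [h8, ← Real.rpow_def_of_pos hN0, Real.rpow_natCast]
      have hb := H3 N q hqne χ τ c1 c2 c3 c4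
      refine hb.trans ?_
      have h9 : C3 * N / Real.log N ^ (K + 1) ≤ |C3| * N / Real.log N ^ (K + 1) := by
        refine div_le_div_of_nonneg_right ?_ (by positivity)
        exact mul_le_mul_of_nonneg_right (le_abs_self _) hN0.le
      refine h9.trans ?_
      have h10 : L ^ (K + 1) ≤ (2 * (m : ℝ)) ^ (K + 1) * Real.log N ^ (K + 1) := by
        rw [← mul_pow]
        exact pow_le_pow_left₀ hL0.le hL2m _
      rw [div_le_div_iff₀ (by positivity) (by positivity)]
      have h11 : 0 ≤ |C3| := abs_nonneg _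
      have h12 := hL.a6
      have h13 : |C3| * N * (2 * L ^ K) ≤ |C3| * (2 * M) * (2 * L ^ K) := by
        refine mul_le_mul_of_nonneg_right (mul_le_mul_of_nonneg_left hN2' h11) (by positivity)
      refine h13.trans ?_
      have h14 : |C3| * (2 * M) * (2 * L ^ K) * L ≤ M * Real.log N ^ (K + 1) * L := by
        calc |C3| * (2 * M) * (2 * L ^ K) * L = 4 * |C3| * M * L ^ (K + 1) := by rw [pow_succ]; ring
          _ ≤ 4 * |C3| * M * ((2 * (m : ℝ)) ^ (K + 1) * Real.log N ^ (K + 1)) :=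
              mul_le_mul_of_nonneg_left h10 (by positivity)
          _ = (4 * |C3| * (2 * (m : ℝ)) ^ (K + 1)) * (M * Real.log N ^ (K + 1)) := by ring
          _ ≤ L * (M * Real.log N ^ (K + 1)) := mul_le_mul_of_nonneg_right h12 (by positivity)
          _ = M * Real.log N ^ (K + 1) * L := by ring
      exact le_of_mul_le_mul_right h14 hL0
    have hIcc : ∀ N : ℕ, Finset.Icc 1 N = Finset.Ioc 0 N := fun N => rfl
    have hsum : ∑ n ∈ Finset.Ioc u v, (χ (n : ZMod q) * ((ArithmeticFunction.moebius n : ℤ) : ℂ)) * nt τ n =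
        ∑ n ∈ Finset.Icc 1 v, ((ArithmeticFunction.moebius n : ℤ) : ℂ) * (χ (n : ZMod q) * nt τ n) -
        ∑ n ∈ Finset.Icc 1 u, ((ArithmeticFunction.moebius n : ℤ) : ℂ) * (χ (n : ZMod q) * nt τ n) := by
      rw [hIcc v, hIcc u, ← Finset.sum_Ioc_consecutive
        (fun n : ℕ => ((ArithmeticFunction.moebius n : ℤ) : ℂ) * (χ (n : ZMod q) * nt τ n)) (Nat.zero_le u) huv.le,
        add_sub_cancel_left]
      exact Finset.sum_congr rfl (fun n _ => by ring)
    rw [hsum]
    calc ‖∑ n ∈ Finset.Icc 1 v, ((ArithmeticFunction.moebius n : ℤ) : ℂ) * (χ (n : ZMod q) * nt τ n) -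
        ∑ n ∈ Finset.Icc 1 u, ((ArithmeticFunction.moebius n : ℤ) : ℂ) * (χ (n : ZMod q) * nt τ n)‖
        ≤ M / (2 * L ^ K) + M / (2 * L ^ K) :=
          (norm_sub_le _ _).trans (add_le_add (key v (by omega) hv) (key u hu (by omega)))
      _ = M / L ^ K := by field_simp; ring
  · refine (hblock v hv).trans ?_
    refine div_le_div_of_nonneg_left hM0.le (by positivity) (pow_le_pow_right₀ hL1 (by omega))
  · rcases le_or_gt v u with hvu | huv
    · rw [Finset.Ioc_eq_empty (by omega)]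
      simpa using hnn
    have h1 : ∑ n ∈ Finset.Ioc u v, (χ (n : ZMod q) * (Real.log n : ℂ)) * nt τ n =
        ∑ n ∈ Finset.Ioc u v, (χ (n : ZMod q) * nt τ n) * (Real.log n : ℂ) :=
      Finset.sum_congr rfl (fun n _ => by ring)
    rw [h1]
    refine (abel_log (fun n => χ (n : ZMod q) * nt τ n) u v (M / L ^ (K + 2)) huv.le
      (fun w h1 h2 => hblock w (by omega))).trans ?_
    have hv0 : (0 : ℝ) < v := by
      have : 0 < v := by omega
      exact_mod_cast this
    have h3 : Real.log v ≤ 3 * L := by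
      have h4 : Real.log v ≤ Real.log (2 * M) := Real.log_le_log hv0 (by exact_mod_cast hv)
      rw [Real.log_mul (by norm_num) hM0.ne'] at h4
      have := Real.log_two_lt_d9
      linarith
    calc 2 * (M / L ^ (K + 2)) * Real.log v ≤ 2 * (M / L ^ (K + 2)) * (3 * L) :=
          mul_le_mul_of_nonneg_left h3 (by positivity)
      _ = M / L ^ K * (6 / L) := by
          rw [pow_add]
          field_simp
          ring
      _ ≤ M / L ^ K * 1 := by
          refine mul_le_mul_of_nonneg_left ?_ hnn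
          rw [div_le_one hL0]; linarith
      _ = M / L ^ K := mul_one _

end Pool.Agent.V5helper35.CR
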